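import Mathlib
import Pool.Agent.QPI.Stmts

set_option autoImplicit false

namespace Pool.Agent.QPI.H32

open MvPolynomial

section

variable {N₁ N₂ : ℕ}

theorem vb_add (hc : VbcStmt) {g h : PowerSeries (MvPolynomial (Fin N₁ ⊕ Fin N₂) ℚ)} {c : ℕ}
    (hg : VB g c) (hh : VB h c) : VB (g + h) c := (hc N₁ N₂ g h c 0).1 hg hh

theorem vb_mul (hc : VbcStmt) {g h : PowerSeries (MvPolynomial (Fin N₁ ⊕ Fin N₂) ℚ)} {c d : ℕ}
    (hg : VB g c) (hh : VB h d) : VB (g * h) (c + d) := (hc N₁ N₂ g h c d).2.1 hg hh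

theorem vb_th (hc : VbcStmt) {g : PowerSeries (MvPolynomial (Fin N₁ ⊕ Fin N₂) ℚ)} {c : ℕ}
    (hg : VB g c) : VB (th g) c := (hc N₁ N₂ g g c 0).2.2.1 hg

theorem vb_neg (hc : VbcStmt) {g : PowerSeries (MvPolynomial (Fin N₁ ⊕ Fin N₂) ℚ)} {c : ℕ}
    (hg : VB g c) : VB (-g) c := (hc N₁ N₂ g g c 0).2.2.2.1 hg

theorem vb_mono (hc : VbcStmt) {g : PowerSeries (MvPolynomial (Fin N₁ ⊕ Fin N₂) ℚ)} {c d : ℕ}
    (hcd : c ≤ d) (hg : VB g c) : VB g d := (hc N₁ N₂ g g c d).2.2.2.2.1 hcd hg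

theorem vb_nat (hc : VbcStmt) (a : ℕ) :
    VB (a : PowerSeries (MvPolynomial (Fin N₁ ⊕ Fin N₂) ℚ)) 0 := (hc N₁ N₂ 0 0 0 0).2.2.2.2.2.1 a

theorem vb_zero (hc : VbcStmt) (c : ℕ) :
    VB (0 : PowerSeries (MvPolynomial (Fin N₁ ⊕ Fin N₂) ℚ)) c := by
  have h := vb_nat (N₁ := N₁) (N₂ := N₂) hc 0
  rw [Nat.cast_zero] at h
  exact vb_mono hc (Nat.zero_le _) h

theorem vb_one (hc : VbcStmt) :
    VB (1 : PowerSeries (MvPolynomial (Fin N₁ ⊕ Fin N₂) ℚ)) 0 := by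
  have h := vb_nat (N₁ := N₁) (N₂ := N₂) hc 1
  rwa [Nat.cast_one] at h

theorem vb_sum (hc : VbcStmt) {α : Type*} (S : Finset α) (c : ℕ)
    (F : α → PowerSeries (MvPolynomial (Fin N₁ ⊕ Fin N₂) ℚ)) (h : ∀ i ∈ S, VB (F i) c) :
    VB (∑ i ∈ S, F i) c :=
  Finset.sum_induction F (fun g => VB g c) (fun _ _ => vb_add hc) (vb_zero hc c) h

theorem vb_prod (hc : VbcStmt) {α : Type*} (S : Finset α) (d : ℕ)
    (F : α → PowerSeries (MvPolynomial (Fin N₁ ⊕ Fin N₂) ℚ)) (h : ∀ i ∈ S, VB (F i) d) :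
    VB (∏ i ∈ S, F i) (S.card * d) := by
  classical
  induction S using Finset.induction_on with
  | empty => rw [Finset.prod_empty, Finset.card_empty, Nat.zero_mul]; exact vb_one hc
  | insert a S ha ih =>
    rw [Finset.prod_insert ha, Finset.card_insert_of_notMem ha, Nat.add_mul, Nat.one_mul,
      Nat.add_comm]
    exact vb_mul hc (h a (Finset.mem_insert_self _ _))
      (ih (fun i hi => h i (Finset.mem_insert_of_mem hi)))

theorem vb_det (hc : VbcStmt) {s : ℕ} (d : ℕ)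
    (M : Matrix (Fin s) (Fin s) (PowerSeries (MvPolynomial (Fin N₁ ⊕ Fin N₂) ℚ)))
    (h : ∀ i j, VB (M i j) d) : VB M.det (s * d) := by
  rw [Matrix.det_apply]
  refine vb_sum hc _ _ _ (fun σ _ => ?_)
  have hp : VB (∏ i, M (σ i) i) (s * d) := by
    have := vb_prod hc Finset.univ d (fun i => M (σ i) i) (fun i _ => h _ _)
    rwa [Finset.card_univ, Fintype.card_fin] at this
  rcases Int.units_eq_one_or (Equiv.Perm.sign σ) with h1 | h1
  · rw [h1, one_smul]; exact hp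
  · rw [h1, Units.neg_smul, one_smul]; exact vb_neg hc hp

theorem vb_Pa (hc : VbcStmt) {D P : PowerSeries (MvPolynomial (Fin N₁ ⊕ Fin N₂) ℚ)} {r c : ℕ}
    (hD : VB D c) (hP : VB P r) (a : ℕ) : VB (Pa D P a) (r + a * c) := by
  induction a with
  | zero => rw [Nat.zero_mul, Nat.add_zero]; exact hP
  | succ a ih =>
    show VB (th (Pa D P a) + D * Pa D P a) _
    refine vb_add hc (vb_mono hc ?_ (vb_th hc ih)) (vb_mono hc ?_ (vb_mul hc hD ih))
    · rw [Nat.succ_mul]; omega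
    · rw [Nat.succ_mul]; omega

end

theorem vbw (hc : VbcStmt) : VbwStmt := by
  intro N₁ N₂ k m s r c τ R f e t μ hf hv hr hs
  have key : VB (WW (fun i => hat X (R i)) (fun j => hat X (f j)) e t)
      ((k + 1) * (r + k * c)) := by
    unfold WW
    refine vb_mono hc (Nat.mul_le_mul_right (r + k * c) hs) (vb_det hc (r + k * c) _ (fun a b => ?_))
    rw [Matrix.of_apply]
    have hD : VB (dlog (fun j => hat (X : Fin N₁ ⊕ Fin N₂ → MvPolynomial (Fin N₁ ⊕ Fin N₂) ℚ)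
        (f j)) (e (t b))) c := by
      unfold dlog
      refine vb_sum hc _ _ _ (fun j _ => ?_)
      have h1 := vb_mul hc (vb_nat (N₁ := N₁) (N₂ := N₂) hc (e (t b) j))
        ((hc N₁ N₂ 0 0 c 0).2.2.2.2.2.2.2 (f j) (hf j) (hv j))
      rwa [Nat.zero_add] at h1
    have hP : VB (hat (X : Fin N₁ ⊕ Fin N₂ → MvPolynomial (Fin N₁ ⊕ Fin N₂) ℚ) (R (t b))) r :=
      (hc N₁ N₂ 0 0 r 0).2.2.2.2.2.2.1 (R (t b)) (hr (t b))
    refine vb_mono hc ?_ (vb_Pa hc hD hP a)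
    have h2 : (a : ℕ) ≤ k := by have := a.2; omega
    exact Nat.add_le_add_left (Nat.mul_le_mul_right c h2) r
  exact key μ

end Pool.Agent.QPI.H32
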