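import Mathlib
import Pool.Agent.QPI.Stmts

set_option autoImplicit false

namespace Pool.Agent.QPI.H32

open MvPolynomial

section

variable {N₁ N₂ : ℕ}


theorem wh_add (hc : WhcStmt) {g h : PowerSeries (MvPolynomial (Fin N₁ ⊕ Fin N₂) ℚ)}
    (hg : WH g) (hh : WH h) : WH (g + h) := (hc N₁ N₂ g h).1 hg hh

theorem wh_mul (hc : WhcStmt) {g h : PowerSeries (MvPolynomial (Fin N₁ ⊕ Fin N₂) ℚ)}
    (hg : WH g) (hh : WH h) : WH (g * h) := (hc N₁ N₂ g h).2.1 hg hh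

theorem wh_th (hc : WhcStmt) {g : PowerSeries (MvPolynomial (Fin N₁ ⊕ Fin N₂) ℚ)}
    (hg : WH g) : WH (th g) := (hc N₁ N₂ g g).2.2.1 hg

theorem wh_neg (hc : WhcStmt) {g : PowerSeries (MvPolynomial (Fin N₁ ⊕ Fin N₂) ℚ)}
    (hg : WH g) : WH (-g) := (hc N₁ N₂ g g).2.2.2.1 hg

theorem wh_nat (hc : WhcStmt) (a : ℕ) :
    WH (a : PowerSeries (MvPolynomial (Fin N₁ ⊕ Fin N₂) ℚ)) := (hc N₁ N₂ 0 0).2.2.2.2.1 a

theorem wh_inv (hc : WhcStmt) {g : PowerSeries (MvPolynomial (Fin N₁ ⊕ Fin N₂) ℚ)}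
    (hg : WH g) (h1 : PowerSeries.constantCoeff g = 1) : WH (PowerSeries.invOfUnit g 1) :=
  (hc N₁ N₂ g g).2.2.2.2.2 hg h1

theorem wh_zero (hc : WhcStmt) :
    WH (0 : PowerSeries (MvPolynomial (Fin N₁ ⊕ Fin N₂) ℚ)) := by
  have h := wh_nat (N₁ := N₁) (N₂ := N₂) hc 0
  rwa [Nat.cast_zero] at h

theorem wh_one (hc : WhcStmt) :
    WH (1 : PowerSeries (MvPolynomial (Fin N₁ ⊕ Fin N₂) ℚ)) := by
  have h := wh_nat (N₁ := N₁) (N₂ := N₂) hc 1
  rwa [Nat.cast_one] at h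

theorem wh_sum (hc : WhcStmt) {α : Type*} (S : Finset α)
    (F : α → PowerSeries (MvPolynomial (Fin N₁ ⊕ Fin N₂) ℚ)) (h : ∀ i ∈ S, WH (F i)) :
    WH (∑ i ∈ S, F i) :=
  Finset.sum_induction F (fun g => WH g) (fun _ _ => wh_add hc) (wh_zero hc) h

theorem wh_prod (hc : WhcStmt) {α : Type*} (S : Finset α)
    (F : α → PowerSeries (MvPolynomial (Fin N₁ ⊕ Fin N₂) ℚ)) (h : ∀ i ∈ S, WH (F i)) :
    WH (∏ i ∈ S, F i) :=
  Finset.prod_induction F (fun g => WH g) (fun _ _ => wh_mul hc) (wh_one hc) h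

theorem wh_det (hc : WhcStmt) {s : ℕ}
    (M : Matrix (Fin s) (Fin s) (PowerSeries (MvPolynomial (Fin N₁ ⊕ Fin N₂) ℚ)))
    (h : ∀ i j, WH (M i j)) : WH M.det := by
  rw [Matrix.det_apply]
  refine wh_sum hc _ _ (fun σ _ => ?_)
  have hp : WH (∏ i, M (σ i) i) := wh_prod hc _ _ (fun i _ => h _ _)
  rcases Int.units_eq_one_or (Equiv.Perm.sign σ) with h1 | h1
  · rw [h1, one_smul]; exact hp
  · rw [h1, Units.neg_smul, one_smul]; exact wh_neg hc hp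

theorem wh_C (a : ℚ) : WH (PowerSeries.C (C a) : PowerSeries (MvPolynomial (Fin N₁ ⊕ Fin N₂) ℚ)) := by
  intro n
  rw [PowerSeries.coeff_C]
  split_ifs with hn
  · subst hn; exact isWeightedHomogeneous_C _ _
  · exact isWeightedHomogeneous_zero _ _ _

theorem wh_X (v : Fin N₁ ⊕ Fin N₂) :
    WH (PowerSeries.X ^ wt v * PowerSeries.C (X v) :
      PowerSeries (MvPolynomial (Fin N₁ ⊕ Fin N₂) ℚ)) := by
  intro n
  rw [PowerSeries.coeff_mul_C, PowerSeries.coeff_X_pow]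
  split_ifs with hn
  · subst hn; rw [one_mul]; exact isWeightedHomogeneous_X _ _ _
  · rw [zero_mul]; exact isWeightedHomogeneous_zero _ _ _

theorem wh_hat (hc : WhcStmt) (p : MvPolynomial (Fin N₁ ⊕ Fin N₂) ℚ) :
    WH (hat (X : Fin N₁ ⊕ Fin N₂ → MvPolynomial (Fin N₁ ⊕ Fin N₂) ℚ) p) := by
  induction p using MvPolynomial.induction_on with
  | C a =>
    have h : hat (X : Fin N₁ ⊕ Fin N₂ → MvPolynomial (Fin N₁ ⊕ Fin N₂) ℚ) (C a) =
        PowerSeries.C (C a) := by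
      unfold hat
      rw [aeval_C, PowerSeries.algebraMap_apply, MvPolynomial.algebraMap_eq]
    rw [h]; exact wh_C a
  | add p q hp hq => rw [map_add]; exact wh_add hc hp hq
  | mul_X p v hp =>
    rw [map_mul]
    refine wh_mul hc hp ?_
    have h : hat (X : Fin N₁ ⊕ Fin N₂ → MvPolynomial (Fin N₁ ⊕ Fin N₂) ℚ) (X v) =
        PowerSeries.X ^ wt v * PowerSeries.C (X v) := by
      unfold hat
      rw [aeval_X]
    rw [h]; exact wh_X v

theorem wh_Pa (hc : WhcStmt) {D P : PowerSeries (MvPolynomial (Fin N₁ ⊕ Fin N₂) ℚ)}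
    (hD : WH D) (hP : WH P) (a : ℕ) : WH (Pa D P a) := by
  induction a with
  | zero => exact hP
  | succ a ih =>
    show WH (th (Pa D P a) + D * Pa D P a)
    exact wh_add hc (wh_th hc ih) (wh_mul hc hD ih)

end

theorem whw (hc : WhcStmt) (hh : HatStmt) : WhwStmt := by
  intro N₁ N₂ m s τ R f e t μ hf
  unfold wro WW
  refine wh_det hc _ (fun a b => ?_) μ
  rw [Matrix.of_apply]
  refine wh_Pa hc ?_ (wh_hat hc _) _
  unfold dlog
  refine wh_sum hc _ _ (fun j _ => ?_)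
  refine wh_mul hc (wh_nat hc _) (wh_mul hc (wh_th hc (wh_hat hc _)) (wh_inv hc (wh_hat hc _) ?_))
  rw [(hh N₁ N₂ _ X (f j)).1, hf j, map_one]

end Pool.Agent.QPI.H32
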